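import Pool.Agent.Helper65.Delone.Goals

/-!
# MP_c45da2_co, packet L: Case II is impossible
-/

namespace Pool.Agent.Helper80.Delone

open Pool.Agent.Helper65.Delone
open Module
open scoped RealInnerProductSpace

variable {E : Type*} [NormedAddCommGroup E] [InnerProductSpace ℝ E]

/-- near points of `X` have the same centre -/
theorem centre_const (hf : FiniteNear E) {X : Set E} {D R W : ℝ}
    {S : E → Set (E ≃ₗᵢ[ℝ] E)} {Q : E → Submodule ℝ E} (hD : 0 < D)
    (hX : SepDense X D R) (F : Frame X (2 * R) W S Q) (hW : 40 * W ≤ 2 * R) {c : E → E}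
    (hcQ : ∀ x ∈ X, c x - x ∈ Q x)
    (hcp : ∀ x ∈ X, ∃ y ∈ X, ‖y - x‖ = W ∧ c y = c x ∧ (∀ u ∈ Q x, ∀ w ∈ Q y, ⟪u, w⟫ = 0))
    (hct : ∀ x ∈ X, ∀ x' ∈ X, ∀ B : E ≃ₗᵢ[ℝ] E, Iso X (2 * R) x x' B → ∀ z ∈ X,
      ‖z - x‖ ≤ 2 * R - W → c (x' + B (z - x)) = x' + B (c z - x)) :
    ∀ x ∈ X, ∀ x' ∈ X, ‖x' - x‖ ≤ 2 * R - 2 * W → c x' = c x := by
  intro x₀ hx₀ x₁ hx₁ hd₁
  by_contra hne
  have hWpos := F.W_pos
  -- the set of bad points
  have hfin : {x | x ∈ X ∧ ‖x - x₀‖ ≤ 2 * R - 2 * W ∧ c x ≠ c x₀}.Finite := by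
    refine (hf X D hD hX.sep x₀ (2 * R - 2 * W)).subset ?_
    rintro x ⟨h1, h2, _⟩
    exact ⟨h1, by rw [norm_sub_rev]; exact h2⟩
  obtain ⟨x', ⟨hx', hdx', hnx'⟩, hmin⟩ :=
    Set.exists_min_image _ (fun x => ‖c x - c x₀‖) hfin ⟨x₁, hx₁, hd₁, hne⟩
  have hdpos : 0 < ‖c x' - c x₀‖ := norm_pos_iff.mpr (sub_ne_zero.mpr hnx')
  have key : ∀ x ∈ X, ∀ z ∈ X, ‖z - x‖ ≤ 2 * R - 2 * W →
      ‖c z - c x‖ < ‖c x' - c x₀‖ → c z = c x := by
    intro x hx z hz hzx hlt
    by_contra hcne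
    obtain ⟨B, hB⟩ := F.cong x hx x₀ hx₀
    have hz' : x₀ + B (z - x) ∈ X := (hB (z - x) (by linarith)).mp (by
      rw [add_sub_cancel]; exact hz)
    have h1 := hct x hx x₀ hx₀ B hB z hz (by linarith)
    have h2 := hct x hx x₀ hx₀ B hB x hx (by rw [sub_self, norm_zero]; linarith)
    rw [sub_self, map_zero, add_zero] at h2
    have h3 : c (x₀ + B (z - x)) - c x₀ = B (c z - c x) := by
      rw [h1, h2, add_sub_add_left_eq_sub, ← map_sub, sub_sub_sub_cancel_right]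
    have h4 : ‖c (x₀ + B (z - x)) - c x₀‖ = ‖c z - c x‖ := by
      rw [h3, LinearIsometryEquiv.norm_map]
    have h5 : c (x₀ + B (z - x)) ≠ c x₀ := by
      intro h
      rw [h, sub_self, norm_zero] at h4
      exact hcne (sub_eq_zero.mp (norm_eq_zero.mp h4.symm))
    have h6 := hmin (x₀ + B (z - x)) ⟨hz', by
      rw [add_sub_cancel_left, LinearIsometryEquiv.norm_map]; exact hzx, h5⟩
    rw [h4] at h6
    linarith
  -- first plane
  have step : ∀ y ∈ X, c y = c x₀ → ‖x' - y‖ ≤ 2 * R - W → c x' - c x₀ ∈ Q y := by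
    intro y hy hcy hdy
    obtain ⟨A, hA⟩ := F.S_ne y hy
    have hAi := F.S_iso y hy A hA
    have hAs := F.S_small y hy A hA
    have hz' : y + A (x' - y) ∈ X := (hAi (x' - y) (by linarith)).mp (by
      rw [add_sub_cancel]; exact hx')
    have h1 := hct y hy y hy A hAi x' hx' hdy
    have h2 : A (c y - y) = c y - y := (F.S_fix y hy A hA _).mpr (hcQ y hy)
    have h3 : c (y + A (x' - y)) - c x' = A (c x' - c x₀) - (c x' - c x₀) := by
      have h4 : A (c x' - y) = A (c x' - c x₀) + (c y - y) := by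
        rw [← h2, ← map_add, hcy]
        congr 1
        abel
      rw [h1, h4, hcy]
      abel
    have h5 : ‖c (y + A (x' - y)) - c x'‖ < ‖c x' - c x₀‖ := by
      rw [h3]
      have := hAs (c x' - c x₀)
      linarith
    have h6 : ‖(y + A (x' - y)) - x'‖ ≤ 2 * R - 2 * W := by
      have h7 : (y + A (x' - y)) - x' = A (x' - y) - (x' - y) := by abel
      rw [h7]
      have := hAs (x' - y)
      linarith
    have h8 := key x' hx' _ hz' h6 h5
    rw [h8, sub_self] at h3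
    exact (F.S_fix y hy A hA _).mp (sub_eq_zero.mp h3.symm)
  have hm0 := step x₀ hx₀ rfl (by linarith)
  obtain ⟨y, hy, hyW, hcy, horth⟩ := hcp x₀ hx₀
  have hmy := step y hy hcy (by
    have h1 : x' - y = (x' - x₀) - (y - x₀) := by abel
    rw [h1]
    have h2 := norm_sub_le (x' - x₀) (y - x₀)
    linarith)
  have h0 := horth _ hm0 _ hmy
  rw [inner_self_eq_zero, sub_eq_zero] at h0
  exact hnx' h0

theorem caseII [FiniteDimensional ℝ E] (hf : FiniteNear E) (hN : LemN E) (hc : Centers E) :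
    CaseII E := by
  intro X D R W S Q hD hX F hW hne
  obtain ⟨c, hcQ, hcn, hcp, hct⟩ := hc X (2 * R) W S Q F hW
  have hconst := centre_const hf hD hX F hW hcQ hcp hct
  have hWpos := F.W_pos
  have hRpos : 0 < R := by linarith
  have hb : ∀ x ∈ X, ‖c x - x‖ ≤ 3 / 4 * W := by
    intro x hx
    have h1 := hcn x hx
    have h2 := norm_nonneg (c x - x)
    nlinarith
  have hSD : SepDense (c '' X) (2 * R - 7 / 2 * W) (R + 3 / 4 * W) := by
    refine ⟨?_, ?_⟩
    · rintro _ ⟨x, hx, rfl⟩ _ ⟨z, hz, rfl⟩ hxz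
      have h1 : 2 * R - 2 * W < ‖x - z‖ := by
        by_contra h
        exact hxz (hconst z hz x hx (not_lt.mp h))
      have h2 : x - z = (c x - c z) - (c x - x) + (c z - z) := by abel
      have h3 : ‖x - z‖ ≤ ‖c x - c z‖ + ‖c x - x‖ + ‖c z - z‖ := by
        rw [h2]
        exact (norm_add_le _ _).trans (by gcongr; exact norm_sub_le _ _)
      have h4 := hb x hx
      have h5 := hb z hz
      linarith
    · intro q
      obtain ⟨x, hx, hqx⟩ := hX.dens q
      refine ⟨c x, ⟨x, hx, rfl⟩, ?_⟩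
      have h2 : q - c x = (q - x) - (c x - x) := by abel
      rw [h2]
      have h3 := norm_sub_le (q - x) (c x - x)
      have h4 := hb x hx
      linarith
  obtain ⟨x, hx⟩ := hne
  have hrank : 2 ≤ finrank ℝ E := by
    rw [← F.Q_rank x hx]
    exact Submodule.finrank_le _
  have h := hN (c '' X) (2 * R - 7 / 2 * W) (R + 3 / 4 * W) (by linarith) hSD hrank
  have h1 : 73 / 40 * R ≤ 2 * R - 7 / 2 * W := by linarith
  have h2 : R + 3 / 4 * W ≤ 83 / 80 * R := by linarith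
  have h3 : (73 / 40 * R) ^ 2 ≤ (2 * R - 7 / 2 * W) ^ 2 := by gcongr
  have h4 : (R + 3 / 4 * W) ^ 2 ≤ (83 / 80 * R) ^ 2 := by gcongr
  nlinarith [mul_pos hRpos hRpos]

end Pool.Agent.Helper80.Delone
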